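import Pool.Agent.Helper58.Problems
import Pool.Agent.Helper58.Reduce
import Pool.Agent.Helper58.Hard

set_option autoImplicit false

namespace Pool.Agent.Results.MP_919317_lc.PPADHardness

open Pool.Agent.Helper58

/-- Finding a panchromatic vertex of the polyhedron `{x : A x ≤ 1, x ≤ 1}` of a square 0-1 matrix
with a valid colouring of its facets is PPAD-hard. -/
theorem result : PPADHard PanchromaticVertex :=
  ⟨reduces_core, reduces_of_reduces⟩

end Pool.Agent.Results.MP_919317_lc.PPADHardness
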